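import Pool.Agent.H57.ML.Assembly

/-!
# MP_6ecee4_co: the multi-layer cop number is sublinear for every fixed number of layers

For every fixed `τ ≥ 1`, the maximum of `c^max_τ(G)` over connected graphs `G` on `n` vertices is `o(n)`.

The first part is the explicit form: for every `ε > 0` and all large `n`, for every graph `G` on `n`
vertices which is the union of `τ` connected cop layers, at most `ε n` cops, suitably allocated to the
layers, catch the robber who may use all the edges of `G`. The second part is the statement in terms of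
the extremal function. (`copNumberMax_isGreatest` and `extremal_isGreatest` in
`Pool/Agent/H57/ML/Fin.lean` show that the suprema in the definitions are maxima.)
-/

namespace Pool.Agent.Results.MP_6ecee4_co.SublinearCopNumber

open H57.ML

/-- Q1 holds: `max c^max_τ(G) = o(n)` for every fixed `τ`. -/
theorem result (τ : ℕ) (hτ : 1 ≤ τ) :
    (∀ ε : ℝ, 0 < ε → ∃ n0 : ℕ, ∀ n ≥ n0, ∀ G : SimpleGraph (Fin n),
      ∀ C : Fin τ → SimpleGraph (Fin n), (∀ i, (C i).Connected) → (⨆ i, C i) = G →
        ∃ k : Fin τ → ℕ, ((∑ i, k i : ℕ) : ℝ) ≤ ε * n ∧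
          CopsWin (⟨C, G⟩ : MultiLayerGraph (Fin n) τ) k) ∧
    (fun n : ℕ => (extremal τ n : ℝ)) =o[Filter.atTop] (fun n : ℕ => (n : ℝ)) := by
  have hred : RedStmt := red_of H25.ML.sam (H33.ML.str H19.ML.ker (H18.ML.mu H18.ML.en) H19.ML.mm)
  exact ⟨fun ε hε => explicit hred τ hτ ε hε, H73.ML.fin hred τ hτ⟩

end Pool.Agent.Results.MP_6ecee4_co.SublinearCopNumber
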